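import Pool.Agent.Helper67.R6.Fam

/-! # MP_798d7d, rank six (the family of six square values): row FIN1 -/

set_option autoImplicit false

namespace Pool.Helper67.R6

open Pool.Agent.Helper97.RK (cur)
open Pool.Helper17.R5 (Ix)
open Pool.Helper17.RS (RS)

/-- the indices of the known abscissae -/
abbrev F1K : Type := {p : (Fin 6 × Fin 6) × Bool // SP p.1.1 p.1.2}

noncomputable instance f1Fintype : Fintype F1K := Fintype.ofFinite _

theorem f1_nonempty : Nonempty F1K :=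
  ⟨⟨((0, 1), true), by
    show SP 0 1
    refine ⟨by decide, ?_⟩
    decide⟩⟩

theorem f1_card_pos : 0 < Fintype.card F1K := Fintype.card_pos_iff.mpr f1_nonempty

/-- the known abscissae -/
def f1th (m : ℕ) (T : (ℕ × ℕ) × (Fin 6 → ℕ)) (k : F1K) : ℤ :=
  xP (ww m T) k.1.1.1 k.1.1.2 (if k.1.2 = true then 1 else -1)

theorem f1_XS_fin (C : ℤ) (N : ℕ) (A B : ℤ) :
    {x : ℤ | |x| ≤ C * (N : ℤ) ^ 2 ∧ ∃ Y : ℤ, Y ^ 2 = x ^ 3 + A * x + B}.Finite := by
  apply (Set.finite_Icc (-(C * (N : ℤ) ^ 2)) (C * (N : ℤ) ^ 2)).subset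
  intro x hx
  exact abs_le.mp hx.1

theorem f1_RS_fin (C : ℤ) (N : ℕ) : (RS 6 C N).Finite := by
  apply ((Set.finite_Icc (-(C * (N : ℤ) ^ 4)) (C * (N : ℤ) ^ 4)).prod
    (Set.finite_Icc (-(C * (N : ℤ) ^ 6)) (C * (N : ℤ) ^ 6))).subset
  intro p hp
  exact ⟨abs_le.mp hp.2.2.1, abs_le.mp hp.2.2.2.1⟩

theorem f1_pow4 (m : ℕ) : ((m ^ 2 : ℕ) : ℤ) ^ 2 = (m : ℤ) ^ 4 := by
  rw [Nat.cast_pow, ← pow_mul]

theorem f1_pow8 (m : ℕ) : ((m ^ 2 : ℕ) : ℤ) ^ 4 = (m : ℤ) ^ 8 := by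
  rw [Nat.cast_pow, ← pow_mul]

theorem f1_pow12 (m : ℕ) : ((m ^ 2 : ℕ) : ℤ) ^ 6 = (m : ℤ) ^ 12 := by
  rw [Nat.cast_pow, ← pow_mul]

theorem f1_boxcard (m : ℕ) : (Box m).card = m ^ 8 := by
  unfold Box
  rw [Finset.card_product, Finset.card_product, Finset.card_range, Fintype.card_piFinset,
    Finset.prod_const, Finset.card_range, Finset.card_univ, Fintype.card_fin]
  rw [← pow_two, ← pow_add]

/-- the fibres -/
theorem f1_fib (hM : ST_MULT) (hP : ST_PTS) (hD : ST_DIV) {C : ℤ} {m : ℕ} (hm : 1 ≤ m) (A B : ℤ)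
    (G : Finset ((ℕ × ℕ) × (Fin 6 → ℕ)))
    (hG : ∀ T ∈ G, T ∈ Box m ∧ Cong (ww m T) ∧
      (∀ q : ℕ, q.Prime → 2 < q → ∃ i, ¬ (q : ℤ) ∣ pp (ww m T) i) ∧
      (∀ i j s, SP i j → (s = 1 ∨ s = -1) → |xP (ww m T) i j s| ≤ C * (m : ℤ) ^ 4) ∧
      aA (ww m T) = A ∧ aB (ww m T) = B) :
    G.card ≤ (Ix C (m ^ 2) A B) ^ (Fintype.card F1K) := by
  classical
  set X := (f1_XS_fin C (m ^ 2) A B).toFinset with hX
  have hXc : X.card = Ix C (m ^ 2) A B := by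
    rw [hX, ← Set.ncard_eq_toFinset_card _ (f1_XS_fin C (m ^ 2) A B)]
    rfl
  have hc : (Fintype.piFinset (fun _ : F1K => X)).card =
      (Ix C (m ^ 2) A B) ^ (Fintype.card F1K) := by
    rw [Fintype.card_piFinset, Finset.prod_const, hXc, Finset.card_univ]
  rw [← hc]
  apply Finset.card_le_card_of_injOn (f1th m)
  · intro T hT
    have ht := hG T hT
    rw [Finset.mem_coe, Fintype.mem_piFinset]
    rintro ⟨⟨⟨i, j⟩, b⟩, hSP⟩
    have hSP' : SP i j := hSP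
    rw [hX, Set.Finite.mem_toFinset]
    have hs : (if b = true then (1 : ℤ) else -1) = 1 ∨ (if b = true then (1 : ℤ) else -1) = -1 := by
      cases b
      · exact Or.inr rfl
      · exact Or.inl rfl
    have h1 := hD (ww m T) ht.2.1 i j hSP' _ hs
    obtain ⟨Y, hY⟩ := hP (ww m T) ht.2.1 i j hSP'.1 _ _ hs h1
    rw [ht.2.2.2.2.1, ht.2.2.2.2.2] at hY
    refine ⟨?_, Y, hY⟩
    rw [f1_pow4]
    exact ht.2.2.2.1 i j _ hSP' hs
  · intro T hT T' hT' h
    have ht := hG T hT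
    have ht' := hG T' hT'
    apply hM m hm T ht.1 T' ht'.1 ht.2.2.1
    intro i j s hSP hs
    rcases hs with rfl | rfl
    · exact congrFun h ⟨((i, j), true), hSP⟩
    · exact congrFun h ⟨((i, j), false), hSP⟩

theorem st_FIN1 (hCE : ST_CERT) (hS : ST_SIEVE) (hGO : ST_GOOD) (hM : ST_MULT) (hP : ST_PTS)
    (hDV : ST_DIV) (hB : ST_BND) (hL : ST_LINK) : ST_FIN1 := by
  classical
  obtain ⟨C, hC1, hbnd⟩ := hB
  obtain ⟨C0, hgood⟩ := hGO
  obtain ⟨C1, hlink⟩ := hL C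
  set C2 : ℕ := max C0 C1 with hC2
  obtain ⟨m0, hsieve⟩ := hS C2
  have hgood := hgood C2 (le_max_left _ _)
  have hlink := hlink C2 (le_max_right _ _)
  refine ⟨(C : ℤ), by exact_mod_cast hC1, ?_⟩
  intro ε hε
  set K : ℕ := Fintype.card F1K with hK
  have hK0 : (0 : ℝ) < (K : ℝ) := by exact_mod_cast f1_card_pos
  have hε' : 0 < ε / K := div_pos hε hK0
  obtain ⟨D, hD, hlink⟩ := hlink (ε / K) hε'
  refine ⟨1 / (4 * (4 * D) ^ K), by positivity, max m0 1, ?_⟩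
  intro m hm
  have hm0 : m0 ≤ m := le_trans (le_max_left _ _) hm
  have hm1 : 1 ≤ m := le_trans (le_max_right _ _) hm
  have hmr : (0 : ℝ) < (m : ℝ) := by exact_mod_cast hm1
  have hsv := hsieve m hm0
  have hlk := hlink m hm1
  have hbd := hbnd m hm1
  have hgd := hgood m hm1
  clear hsieve hlink hbnd hgood
  set M : ℝ := 4 * D * (m : ℝ) ^ (ε / K) with hMdef
  have hM0 : 0 < M := by positivity
  -- the bad sets
  set b1 := (Box m).filter (fun T => ¬ Gd C2 m T) with hb1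
  set g1 := (Box m).filter (fun T => Gd C2 m T) with hg1
  set b2 := g1.filter (fun T => M < (Ix C (m ^ 2) (aA (ww m T)) (aB (ww m T)) : ℝ)) with hb2
  have hb1c : 2 * b1.card ≤ m ^ 8 := by
    convert hsv using 3
  have hb2c : 4 * (b2.card : ℝ) ≤ (m : ℝ) ^ 8 := by
    have h1 : (b2.card : ℝ) * M ≤
        ∑ T ∈ g1, (Ix C (m ^ 2) (aA (ww m T)) (aB (ww m T)) : ℝ) := by
      calc (b2.card : ℝ) * M = ∑ _T ∈ b2, M := by rw [Finset.sum_const, nsmul_eq_mul]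
        _ ≤ ∑ T ∈ b2, (Ix C (m ^ 2) (aA (ww m T)) (aB (ww m T)) : ℝ) := by
            apply Finset.sum_le_sum
            intro T hT
            exact (Finset.mem_filter.mp hT).2.le
        _ ≤ ∑ T ∈ g1, (Ix C (m ^ 2) (aA (ww m T)) (aB (ww m T)) : ℝ) := by
            apply Finset.sum_le_sum_of_subset_of_nonneg (Finset.filter_subset _ _)
            intro T _ _
            exact Nat.cast_nonneg _
    have h2 : ∑ T ∈ g1, (Ix C (m ^ 2) (aA (ww m T)) (aB (ww m T)) : ℝ) ≤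
        D * (m : ℝ) ^ (8 + ε / K) := by
      refine le_trans (le_of_eq ?_) hlk
      apply Finset.sum_congr _ (fun _ _ => rfl)
      ext T
      simp only [hg1, Finset.mem_filter]
    have h3 : (m : ℝ) ^ (8 + ε / K) = (m : ℝ) ^ 8 * (m : ℝ) ^ (ε / K) := by
      rw [Real.rpow_add hmr]
      norm_cast
    rw [h3] at h2
    have h4 : (b2.card : ℝ) * M ≤ D * ((m : ℝ) ^ 8 * (m : ℝ) ^ (ε / K)) := le_trans h1 h2
    rw [hMdef] at h4
    have h5 : 0 < D * (m : ℝ) ^ (ε / K) := by positivity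
    have h6 : (4 * (b2.card : ℝ)) * (D * (m : ℝ) ^ (ε / K)) ≤
        (m : ℝ) ^ 8 * (D * (m : ℝ) ^ (ε / K)) := by
      calc (4 * (b2.card : ℝ)) * (D * (m : ℝ) ^ (ε / K))
          = (b2.card : ℝ) * (4 * D * (m : ℝ) ^ (ε / K)) := by ring
        _ ≤ D * ((m : ℝ) ^ 8 * (m : ℝ) ^ (ε / K)) := h4
        _ = (m : ℝ) ^ 8 * (D * (m : ℝ) ^ (ε / K)) := by ring
    exact le_of_mul_le_mul_right h6 h5
  -- the good set
  set G := g1 \ b2 with hGdef
  have hGc : (m : ℝ) ^ 8 / 4 ≤ (G.card : ℝ) := by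
    have h1 : (Box m).card ≤ G.card + b1.card + b2.card := by
      have h2 : Box m ⊆ G ∪ b1 ∪ b2 := by
        intro T hT
        by_cases hT1 : Gd C2 m T
        · by_cases hT2 : T ∈ b2
          · exact Finset.mem_union_right _ hT2
          · apply Finset.mem_union_left
            apply Finset.mem_union_left
            rw [hGdef, Finset.mem_sdiff]
            exact ⟨Finset.mem_filter.mpr ⟨hT, hT1⟩, hT2⟩
        · exact Finset.mem_union_left _ (Finset.mem_union_right _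
            (Finset.mem_filter.mpr ⟨hT, hT1⟩))
      calc (Box m).card ≤ (G ∪ b1 ∪ b2).card := Finset.card_le_card h2
        _ ≤ (G ∪ b1).card + b2.card := Finset.card_union_le _ _
        _ ≤ G.card + b1.card + b2.card := by
            have := Finset.card_union_le G b1
            omega
    rw [f1_boxcard] at h1
    have h1' : ((m : ℝ) ^ 8) ≤ (G.card : ℝ) + (b1.card : ℝ) + (b2.card : ℝ) := by exact_mod_cast h1
    have h2' : 2 * (b1.card : ℝ) ≤ (m : ℝ) ^ 8 := by exact_mod_cast hb1c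
    linarith
  have hGm : ∀ T ∈ G, T ∈ Box m ∧ Gd C2 m T ∧
      (Ix C (m ^ 2) (aA (ww m T)) (aB (ww m T)) : ℝ) ≤ M := by
    intro T hT
    rw [hGdef, Finset.mem_sdiff] at hT
    have h1 := Finset.mem_filter.mp hT.1
    refine ⟨h1.1, h1.2, ?_⟩
    by_contra h
    exact hT.2 (Finset.mem_filter.mpr ⟨hT.1, not_le.mp h⟩)
  -- the map
  set F : ((ℕ × ℕ) × (Fin 6 → ℕ)) → ℤ × ℤ := fun T => (aA (ww m T), aB (ww m T)) with hF
  have himg : G.card ≤ (⌊M⌋₊) ^ K * (G.image F).card := by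
    apply Finset.card_le_mul_card_image
    intro p hp
    obtain ⟨t0, ht0, hp0⟩ := Finset.mem_image.mp hp
    have hIx : Ix C (m ^ 2) p.1 p.2 ≤ ⌊M⌋₊ := by
      apply Nat.le_floor
      have := (hGm t0 ht0).2.2
      rw [← hp0]
      exact this
    refine le_trans ?_ (Nat.pow_le_pow_left hIx K)
    apply f1_fib hM hP hDV hm1
    intro T hT
    obtain ⟨hTG, hTp⟩ := Finset.mem_filter.mp hT
    have hg := hGm T hTG
    have hb := hbd T hg.1
    have hTp' : (aA (ww m T), aB (ww m T)) = p := hTp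
    have e1 : aA (ww m T) = p.1 := by rw [← hTp']
    have e2 : aB (ww m T) = p.2 := by rw [← hTp']
    exact ⟨hg.1, hb.1, (hgd T hg.1 hg.2.1).2.2, hb.2.2.2.2.1, e1, e2⟩
  have hsub : (↑(G.image F) : Set (ℤ × ℤ)) ⊆ RS 6 C (m ^ 2) := by
    intro p hp
    rw [Finset.mem_coe, Finset.mem_image] at hp
    obtain ⟨T, hT, rfl⟩ := hp
    have hg := hGm T hT
    have hb := hbd T hg.1
    have hc := hCE (ww m T) hb.1
    refine ⟨hc.1, (hgd T hg.1 hg.2.1).1, ?_, ?_, hc.2.2.2⟩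
    · rw [f1_pow8]
      exact hb.2.2.2.2.2.1
    · rw [f1_pow12]
      exact hb.2.2.2.2.2.2
  have hcard : (G.image F).card ≤ (RS 6 C (m ^ 2)).ncard := by
    rw [← Set.ncard_coe_finset]
    exact Set.ncard_le_ncard hsub (f1_RS_fin C (m ^ 2))
  have hfin : (m : ℝ) ^ 8 / 4 ≤ M ^ K * ((RS 6 C (m ^ 2)).ncard : ℝ) := by
    refine le_trans hGc ?_
    have h1 : (G.card : ℝ) ≤ ((⌊M⌋₊ : ℕ) : ℝ) ^ K * ((G.image F).card : ℝ) := by
      exact_mod_cast himg
    refine le_trans h1 ?_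
    apply mul_le_mul
    · exact pow_le_pow_left₀ (Nat.cast_nonneg _) (Nat.floor_le hM0.le) K
    · exact_mod_cast hcard
    · exact Nat.cast_nonneg _
    · exact (pow_pos hM0 K).le
  have hMK : M ^ K = (4 * D) ^ K * (m : ℝ) ^ ε := by
    rw [hMdef, mul_pow, ← Real.rpow_natCast ((m : ℝ) ^ (ε / K)) K, ← Real.rpow_mul hmr.le,
      div_mul_cancel₀ ε hK0.ne']
  have h5 : (m : ℝ) ^ (8 - ε) = (m : ℝ) ^ 8 / (m : ℝ) ^ ε := by
    rw [Real.rpow_sub hmr]
    norm_cast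
  rw [h5]
  have hpos : 0 < (m : ℝ) ^ ε := Real.rpow_pos_of_pos hmr _
  rw [hMK] at hfin
  have h6 : 0 < (4 * D) ^ K := pow_pos (by linarith) K
  rw [← mul_div_assoc, div_le_iff₀ hpos, one_div, inv_mul_le_iff₀ (mul_pos (by norm_num) h6)]
  calc (m : ℝ) ^ 8 = 4 * ((m : ℝ) ^ 8 / 4) := by ring
    _ ≤ 4 * ((4 * D) ^ K * (m : ℝ) ^ ε * ((RS 6 C (m ^ 2)).ncard : ℝ)) := by linarith
    _ = 4 * (4 * D) ^ K * (((RS 6 C (m ^ 2)).ncard : ℝ) * (m : ℝ) ^ ε) := by ring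

end Pool.Helper67.R6
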